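import Mathlib
import Pool.Agent.V11307.MT.F5

/-!
# A signed evaluation of the monotone triangle polynomial

We prove `A_n = (-1)^n α(2 n + 1; 1, 2, ..., n + 1, 1, 2, ..., n)` for all `n`, where
`A_n = α(n; 1, 2, ..., n)`.

The proof takes place in the shuffle algebra (with kernel `1 - x + x y`) generated by letters `t_a`: a word
`t_{k_1} ... t_{k_n}` is an alternating polynomial and `α(n; k_1, ..., k_n)` is the value at `(1, ..., 1)` of its
quotient by the Vandermonde product.  The new ingredient is the identity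
`D (t_0 ... t_m) = (-1)^m t_{m+1} (t_1 ... t_m) - (t_1 ... t_m) t_0`, where `D` multiplies by `∏ (x_j - 1)`; it is
proved by induction within a one-parameter family of identities.  Comparing values at `x = 0` it gives
`(t_0 ... t_n) (t_0 ... t_{n-1}) = (t_1 ... t_n)² t_0`, and putting one variable equal to `1` one is led to
`(-1)^n (t_2 ... t_{n+1})²`, whose evaluation is `A_n`.
-/

set_option autoImplicit false

namespace Pool.Agent.Results.MP_ea94f4_co.SignedEvaluation

open Finset Pool.Agent.V11175.Sh Pool.Agent.V11175.Sh.A Pool.Agent.V11175.MT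

/-- the sequence `(1, ..., n + 1, 1, 2, 3, ...)` (index `j` starts at `0`) -/
def tseq (n j : ℕ) : ℕ := if j < n + 1 then j + 1 else j - n

lemma list_t (n : ℕ) : List.ofFn (fun j : Fin (2 * n + 1) => tseq n j) =
    List.range' 1 (n + 1) ++ List.range' 1 n := by
  apply List.ext_getElem
  · simp; ring
  · intro j h1 h2
    rw [List.getElem_ofFn]
    simp only [tseq]
    by_cases hj : j < n + 1
    · rw [if_pos hj, List.getElem_append_left (by simpa using hj), List.getElem_range']
      omega
    · rw [if_neg hj, List.getElem_append_right (by simpa using hj), List.getElem_range']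
      simp; omega

lemma list_inc (a n : ℕ) : List.ofFn (fun j : Fin n => (j : ℕ) + a) = List.range' a n := by
  apply List.ext_getElem
  · simp
  · intro j h1 h2
    rw [List.getElem_ofFn, List.getElem_range']
    simp; omega

lemma inc_mono (a n : ℕ) : StrictMono (fun j : Fin n => (j : ℕ) + a) := by
  intro x y h
  rw [Fin.lt_def] at h
  simp only
  omega

lemma al_inc (a n : ℕ) : al n (run (a + 1) n) = al n (run a n) := by
  have h1 := alpha_eq_mt (fun j : Fin n => (j : ℕ) + (a + 1)) (inc_mono _ _)
  have h2 := alpha_eq_mt (fun j : Fin n => (j : ℕ) + a) (inc_mono _ _)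
  rw [alpha_of_list _ _ (list_inc _ _), wordL_range'] at h1 h2
  rw [h1, h2]
  have h3 := mt_shift n (fun j : Fin n => (((j : ℕ) + a : ℕ) : ℤ)) 1
  rw [← h3]
  congr 2

lemma al_sgn (m n : ℕ) (w : A R) : al m ((-1 : R) ^ n • w) = (-1) ^ n * al m w := by
  rcases Nat.even_or_odd n with h | h
  · rw [h.neg_one_pow, h.neg_one_pow, one_smul, one_mul]
  · rw [h.neg_one_pow, h.neg_one_pow, neg_smul, one_smul, al_neg]; ring

/-- **A signed evaluation of the monotone triangle polynomial.**  First: the monotone triangle polynomials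
exist and are unique.  Second: for all `n`, with `A_n = α(n; 1, ..., n)` (which is the number of monotone
triangles with bottom row `(1, ..., n)`), `A_n = (-1)^n α(2 n + 1; 1, ..., n + 1, 1, ..., n)`. -/
theorem result :
    (∀ n : ℕ, ∃! P : MvPolynomial (Fin n) ℚ, IsAlpha n P) ∧
    ∀ n : ℕ, ∀ P : MvPolynomial (Fin n) ℚ, IsAlpha n P →
      ∀ Q : MvPolynomial (Fin (2 * n + 1)) ℚ, IsAlpha (2 * n + 1) Q →
      MvPolynomial.eval (fun j : Fin n => (((j : ℕ) + 1 : ℕ) : ℚ)) P =
        numMT n (fun j : Fin n => ((j : ℕ) : ℤ) + 1) ∧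
      MvPolynomial.eval (fun j : Fin n => (((j : ℕ) + 1 : ℕ) : ℚ)) P =
        (-1) ^ n * MvPolynomial.eval (fun j : Fin (2 * n + 1) => (tseq n j : ℚ)) Q := by
  refine ⟨existsUnique, ?_⟩
  intro n P hP Q hQ
  have h0 : MvPolynomial.eval (fun j : Fin n => (((j : ℕ) + 1 : ℕ) : ℚ)) P = alpha (fun j : Fin n => (j : ℕ) + 1) :=
    eval_eq hP (fun j : Fin n => (j : ℕ) + 1)
  constructor
  · rw [h0, alpha_eq_num _ (inc_mono 1 n)]
    push_cast
    rfl
  · rw [h0, alpha_of_list _ _ (list_inc 1 n), wordL_range', eval_eq hQ (fun j : Fin (2 * n + 1) => tseq n j),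
      alpha_of_list _ _ (list_t n), wordL_append, wordL_range', wordL_range']
    rw [al_step (2 * n) ((nat_run _ _).mul (nat_run _ _)) (Pool.Agent.V11307.MT.d_word n), al_sgn,
      al_congr (show 2 * n = n + n by ring), al_run_run 2 n n le_rfl, al_inc 1 n, ← mul_assoc, ← mul_pow]
    simp

end Pool.Agent.Results.MP_ea94f4_co.SignedEvaluation
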